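import Pool.Agent.Q165.GL.Basic

/-!
# Project GL (helper165), job BLOCK
-/

set_option autoImplicit false

namespace Pool.Agent.Q153.GL

open Finset Pool.Agent.Q165.GL

variable {ι : Type} [Fintype ι]

open Classical in
/-- the vertices at distance one or two (as ends of walks) from `y` -/
noncomputable def RR (G : SimpleGraph ι) (y : ι) : Finset ι :=
  univ.filter fun z => G.Adj y z ∨ ∃ p, G.Adj y p ∧ G.Adj p z

theorem RR_card (G : SimpleGraph ι) (y : ι) (d : ℕ) (hd : ∀ z, deg G z ≤ d) : (RR G y).card ≤ d + d ^ 2 := by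
  classical
  have h1 : RR G y ⊆ (univ.filter fun z => G.Adj y z) ∪
      ((univ.filter fun q : ι × ι => G.Adj y q.1 ∧ G.Adj q.1 q.2).image Prod.snd) := by
    intro z hz
    unfold RR at hz
    rw [mem_filter] at hz
    rw [mem_union, mem_filter, mem_image]
    rcases hz.2 with h | ⟨p, h, h'⟩
    · exact Or.inl ⟨mem_univ _, h⟩
    · exact Or.inr ⟨(p, z), by rw [mem_filter]; exact ⟨mem_univ _, h, h'⟩, rfl⟩
  refine (card_le_card h1).trans ((card_union_le _ _).trans (Nat.add_le_add ?_ ?_))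
  · refine le_trans (le_of_eq ?_) (hd y)
    unfold deg cnt
    congr
  · refine card_image_le.trans ?_
    refine le_trans (le_of_eq ?_) (dd_le G d hd y)
    unfold dd cnt
    congr

open Classical in
/-- the number of the elements of `RR` below `x` -/
noncomputable def uu (V : Views ι) (G : SimpleGraph ι) (y x : ι) : ℕ :=
  ((RR G y).filter fun z => z ≠ y ∧ V.r y z < V.r y x).card

theorem uu_le (V : Views ι) (G : SimpleGraph ι) (y x : ι) : uu V G y x ≤ (RR G y).card := by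
  classical
  unfold uu
  exact card_le_card (filter_subset _ _)

theorem uu_mono (V : Views ι) (G : SimpleGraph ι) (y : ι) {x x' : ι} (h : V.r y x ≤ V.r y x') :
    uu V G y x ≤ uu V G y x' := by
  classical
  unfold uu
  refine card_le_card fun z hz => ?_
  rw [mem_filter] at hz ⊢
  exact ⟨hz.1, hz.2.1, lt_of_lt_of_le hz.2.2 h⟩

theorem uu_eq (V : Views ι) (G : SimpleGraph ι) (y : ι) {x x' : ι} (h : uu V G y x = uu V G y x') {z : ι}
    (hz : z ∈ RR G y) (hzy : z ≠ y) : V.r y z < V.r y x ↔ V.r y z < V.r y x' := by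
  classical
  have key : ∀ {x x' : ι}, uu V G y x = uu V G y x' → V.r y x ≤ V.r y x' →
      (V.r y z < V.r y x ↔ V.r y z < V.r y x') := by
    intro x x' h hle
    refine ⟨fun h1 => lt_of_lt_of_le h1 hle, fun h1 => ?_⟩
    have hsub : ((RR G y).filter fun z => z ≠ y ∧ V.r y z < V.r y x) ⊆
        ((RR G y).filter fun z => z ≠ y ∧ V.r y z < V.r y x') := by
      intro w hw
      rw [mem_filter] at hw ⊢
      exact ⟨hw.1, hw.2.1, lt_of_lt_of_le hw.2.2 hle⟩
    have heq := eq_of_subset_of_card_le hsub (le_of_eq h.symm)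
    have hmem : z ∈ ((RR G y).filter fun z => z ≠ y ∧ V.r y z < V.r y x') := by
      rw [mem_filter]
      exact ⟨hz, hzy, h1⟩
    rw [← heq, mem_filter] at hmem
    exact hmem.2.2
  rcases le_total (V.r y x) (V.r y x') with h1 | h1
  · exact key h h1
  · exact (key h.symm h1).symm

theorem ns_eq (V : Views ι) (G : SimpleGraph ι) {y x x' : ι} (hy : y ≠ x) (hy' : y ≠ x') (hx : x ∉ RR G y)
    (hx' : x' ∉ RR G y) (h : uu V G y x = uu V G y x') {z : ι} (hz : z ∈ RR G y) (hzy : z ≠ y) :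
    ns V y x z ↔ ns V y x' z := by
  have h1 := uu_eq V G y h hz hzy
  have hxz : x ≠ z := fun e => hx (e ▸ hz)
  have hxz' : x' ≠ z := fun e => hx' (e ▸ hz)
  have n1 := V.hr y x z hy hzy.symm hxz
  have n2 := V.hr y x' z hy' hzy.symm hxz'
  unfold ns
  rcases lt_or_gt_of_ne n1 with a1 | a1
  · -- r x < r z
    have b1 : V.r y x' < V.r y z := by
      rcases lt_or_gt_of_ne n2 with b | b
      · exact b
      · exact absurd (h1.2 b) (not_lt.2 a1.le)
    rw [mul_pos_iff, mul_pos_iff]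
    constructor
    · rintro (⟨c, _⟩ | ⟨_, c⟩)
      · exact Or.inl ⟨c, sub_pos.2 b1⟩
      · linarith
    · rintro (⟨c, _⟩ | ⟨_, c⟩)
      · exact Or.inl ⟨c, sub_pos.2 a1⟩
      · linarith
  · have b1 : V.r y z < V.r y x' := h1.1 a1
    rw [mul_pos_iff, mul_pos_iff]
    constructor
    · rintro (⟨_, c⟩ | ⟨c, _⟩)
      · linarith
      · exact Or.inr ⟨c, sub_neg.2 b1⟩
    · rintro (⟨_, c⟩ | ⟨c, _⟩)
      · linarith
      · exact Or.inr ⟨c, sub_neg.2 a1⟩

omit [Fintype ι] in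
theorem chi_pos_iff (V : Views ι) {y x z : ι} (h1 : 0 < V.a y x) : 0 < V.chi y x z ↔ ns V y x z := by
  unfold Views.chi ns
  rw [mul_assoc, mul_pos_iff_of_pos_left h1]

omit [Fintype ι] in
theorem chi_neg_iff (V : Views ι) {y x z : ι} (h1 : V.a y x < 0) : V.chi y x z < 0 ↔ ns V y x z := by
  unfold Views.chi ns
  rw [mul_assoc, mul_neg_iff]
  constructor
  · rintro (⟨c, _⟩ | ⟨_, c⟩)
    · linarith
    · exact c
  · intro c
    exact Or.inr ⟨h1, c⟩

/-- the number of the near edges met, in a symmetric form -/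
theorem nea_eq (V : Views ι) (G : SimpleGraph ι) {y x : ι} (hy : y ≠ x) : nea V G y x =
    cnt (fun q : ι × ι => G.Adj q.1 q.2 ∧ near G y q.1 q.2 ∧ (q.1 ≠ y ∧ q.1 ≠ x ∧ q.2 ≠ y ∧ q.2 ≠ x) ∧
      ns V y x q.1 ∧ ¬ ns V y x q.2) := by
  rcases lt_or_gt_of_ne (V.ha y x hy) with ha | ha
  · unfold nea
    rw [← cnt_swap]
    apply cnt_congr
    rintro ⟨p, q⟩
    simp only [sepP, near]
    constructor
    · rintro ⟨h1, h2, h3, h4, h5, h6, h7, h8⟩
      refine ⟨h1.symm, h2.symm, ⟨h5, h6, h3, h4⟩, (chi_neg_iff V ha).1 h8, fun h9 => ?_⟩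
      exact absurd ((chi_neg_iff V ha).2 h9) (not_lt.2 h7.le)
    · rintro ⟨h1, h2, ⟨h3, h4, h5, h6⟩, h7, h8⟩
      refine ⟨h1.symm, h2.symm, h5, h6, h3, h4, ?_, (chi_neg_iff V ha).2 h7⟩
      have h9 := chi_ne V hy h5.symm h6.symm
      rcases lt_or_gt_of_ne h9 with c | c
      · exact absurd ((chi_neg_iff V ha).1 c) h8
      · exact c
  · unfold nea
    apply cnt_congr
    rintro ⟨p, q⟩
    simp only [sepP]
    constructor
    · rintro ⟨h1, h2, h3, h4, h5, h6, h7, h8⟩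
      refine ⟨h1, h2, ⟨h3, h4, h5, h6⟩, (chi_pos_iff V ha).1 h7, fun h9 => ?_⟩
      exact absurd ((chi_pos_iff V ha).2 h9) (not_lt.2 h8.le)
    · rintro ⟨h1, h2, ⟨h3, h4, h5, h6⟩, h7, h8⟩
      refine ⟨h1, h2, h3, h4, h5, h6, (chi_pos_iff V ha).2 h7, ?_⟩
      have h9 := chi_ne V hy h5.symm h6.symm
      rcases lt_or_gt_of_ne h9 with c | c
      · exact c
      · exact absurd ((chi_pos_iff V ha).1 c) h8

theorem near_R (G : SimpleGraph ι) {y p q : ι} (h : G.Adj p q) (hn : near G y p q) : p ∈ RR G y ∧ q ∈ RR G y := by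
  classical
  unfold RR
  rw [mem_filter, mem_filter]
  rcases hn with hn | hn
  · exact ⟨⟨mem_univ _, Or.inl hn⟩, ⟨mem_univ _, Or.inr ⟨p, hn, h⟩⟩⟩
  · exact ⟨⟨mem_univ _, Or.inr ⟨q, hn, h.symm⟩⟩, ⟨mem_univ _, Or.inl hn⟩⟩

theorem nearN_eq (V : Views ι) (G : SimpleGraph ι) {y x x' : ι} (hy : y ≠ x) (hy' : y ≠ x') (hx : x ∉ RR G y)
    (hx' : x' ∉ RR G y) (h : uu V G y x = uu V G y x') (σ : Prop) : nearN V G y x σ = nearN V G y x' σ := by
  have hns := fun {z : ι} (hz : z ∈ RR G y) (hzy : z ≠ y) => ns_eq V G hy hy' hx hx' h hz hzy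
  unfold nearN
  congr 1
  · apply cnt_congr
    intro q
    have hR : G.Adj y q → q ∈ RR G y := by
      classical
      intro h1
      unfold RR
      rw [mem_filter]
      exact ⟨mem_univ _, Or.inl h1⟩
    constructor
    · rintro ⟨h1, h2, h3⟩
      refine ⟨h1, fun e => hx' (e ▸ hR h1), ?_⟩
      rw [← hns (hR h1) h1.ne']
      exact h3
    · rintro ⟨h1, h2, h3⟩
      refine ⟨h1, fun e => hx (e ▸ hR h1), ?_⟩
      rw [hns (hR h1) h1.ne']
      exact h3
  · rw [nea_eq V G hy, nea_eq V G hy']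
    apply cnt_congr
    rintro ⟨p, q⟩
    simp only
    constructor
    · rintro ⟨h1, h2, ⟨h3, h4, h5, h6⟩, h7, h8⟩
      obtain ⟨r1, r2⟩ := near_R G h1 h2
      refine ⟨h1, h2, ⟨h3, fun e => hx' (e ▸ r1), h5, fun e => hx' (e ▸ r2)⟩, ?_, ?_⟩
      · rw [← hns r1 h3]; exact h7
      · rw [← hns r2 h5]; exact h8
    · rintro ⟨h1, h2, ⟨h3, h4, h5, h6⟩, h7, h8⟩
      obtain ⟨r1, r2⟩ := near_R G h1 h2
      refine ⟨h1, h2, ⟨h3, fun e => hx (e ▸ r1), h5, fun e => hx (e ▸ r2)⟩, ?_, ?_⟩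
      · rw [hns r1 h3]; exact h7
      · rw [hns r2 h5]; exact h8

theorem block : S_BLOCK := by
  intro ι _ V G y σ d b m hd hcnt
  classical
  rcases Nat.eq_zero_or_pos m with rfl | hm
  · exact ⟨∅, le_rfl, fun x hx => absurd hx (notMem_empty x), fun x hx => absurd hx (notMem_empty x)⟩
  have hR := RR_card G y d hd
  -- the good points outside of `RR`
  have hA : (d + d ^ 2 + 1) * m ≤ ((univ.filter fun x : ι => x ≠ y ∧ b ≤ nearN V G y x σ) \ RR G y).card := by
    have h1 := le_card_sdiff (RR G y) (univ.filter fun x : ι => x ≠ y ∧ b ≤ nearN V G y x σ)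
    have h2 : cnt (fun x : ι => x ≠ y ∧ b ≤ nearN V G y x σ) =
        (univ.filter fun x : ι => x ≠ y ∧ b ≤ nearN V G y x σ).card := by
      unfold cnt
      congr
    rw [h2] at hcnt
    omega
  obtain ⟨u0, -, hu0⟩ := exists_le_card_fiber_of_mul_le_card_of_maps_to
    (s := (univ.filter fun x : ι => x ≠ y ∧ b ≤ nearN V G y x σ) \ RR G y) (t := range (d + d ^ 2 + 1))
    (f := uu V G y) (n := m) (fun x _ => by
      rw [mem_range]
      have := uu_le V G y x
      omega) ⟨0, by rw [mem_range]; omega⟩ (by rw [card_range]; exact hA)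
  -- the class
  obtain ⟨x0, hx0⟩ : (((univ.filter fun x : ι => x ≠ y ∧ b ≤ nearN V G y x σ) \ RR G y).filter
      fun x => uu V G y x = u0).Nonempty := by
    rw [← card_pos]
    omega
  rw [mem_filter, mem_sdiff, mem_filter] at hx0
  obtain ⟨⟨⟨-, hx0y, hx0b⟩, hx0R⟩, hx0u⟩ := hx0
  refine ⟨univ.filter fun x : ι => x ≠ y ∧ x ∉ RR G y ∧ uu V G y x = u0, ?_, ?_, ?_⟩
  · refine hu0.trans (card_le_card fun x hx => ?_)
    rw [mem_filter, mem_sdiff, mem_filter] at hx
    rw [mem_filter]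
    exact ⟨mem_univ _, hx.1.1.2.1, hx.1.2, hx.2⟩
  · intro x hx
    rw [mem_filter] at hx
    obtain ⟨-, h1, h2, h3⟩ := hx
    refine ⟨h1, ?_⟩
    rw [nearN_eq V G h1.symm hx0y.symm h2 hx0R (h3.trans hx0u.symm) σ]
    exact hx0b
  · intro u hu v hv z hz h1 h2
    rw [mem_filter] at hu hv ⊢
    obtain ⟨-, hu1, hu2, hu3⟩ := hu
    obtain ⟨-, hv1, hv2, hv3⟩ := hv
    have hzR : z ∉ RR G y := by
      intro hzR
      have := (uu_eq V G y (hu3.trans hv3.symm) hzR hz).2 h2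
      exact absurd this (not_lt.2 h1.le)
    refine ⟨mem_univ _, hz, hzR, ?_⟩
    have a1 := uu_mono V G y h1.le
    have a2 := uu_mono V G y h2.le
    omega

end Pool.Agent.Q153.GL
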