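import Pool.Agent.Q165.GL.Basic

/-!
# Project GL (helper165), job NEAR
-/

set_option autoImplicit false

namespace Pool.Agent.Q153.GL

open Finset Pool.Agent.Q165.GL

variable {ι : Type} [Fintype ι]

omit [Fintype ι] in
theorem chi_anti (V : Views ι) (y x z : ι) : V.chi y x z = -V.chi y z x := by
  unfold Views.chi
  ring

/-- a tournament on `A` -/
theorem tour [DecidableEq ι] (A : Finset ι) (T : ι → ι → Prop) [∀ x, DecidablePred (T x)]
    (hT : ∀ x ∈ A, ∀ q ∈ A, x ≠ q → (T x q ↔ ¬ T q x)) :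
    2 * (A.offDiag.filter fun q => T q.1 q.2).card = A.card * A.card - A.card := by
  have h1 : (A.offDiag.filter fun q => T q.1 q.2).card = (A.offDiag.filter fun q => ¬ T q.1 q.2).card := by
    refine card_bij (fun q _ => (q.2, q.1)) ?_ ?_ ?_
    · rintro ⟨x, q⟩ h
      rw [mem_filter, mem_offDiag] at h
      rw [mem_filter, mem_offDiag]
      obtain ⟨⟨hx, hq, hne⟩, ht⟩ := h
      exact ⟨⟨hq, hx, hne.symm⟩, (hT x hx q hq hne).1 ht⟩
    · rintro ⟨x, q⟩ _ ⟨x', q'⟩ _ h
      rw [Prod.mk.injEq] at h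
      exact Prod.ext h.2 h.1
    · rintro ⟨x, q⟩ h
      rw [mem_filter, mem_offDiag] at h
      obtain ⟨⟨hx, hq, hne⟩, ht⟩ := h
      refine ⟨(q, x), ?_, rfl⟩
      rw [mem_filter, mem_offDiag]
      exact ⟨⟨hq, hx, hne.symm⟩, (hT q hq x hx hne.symm).2 ht⟩
  have h2 := card_filter_add_card_filter_not (s := A.offDiag) (fun q : ι × ι => T q.1 q.2)
  rw [offDiag_card] at h2
  omega

theorem quad (a K : ℕ) : 2 * K * a ≤ (a * a - a) + K * (K + 1) := by
  have h1 : a ≤ a * a := Nat.le_mul_self a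
  zify [h1]
  have h2 : (0 : ℤ) ≤ ((a : ℤ) - K) * ((a : ℤ) - K - 1) := by
    rcases le_or_gt ((a : ℤ) - K) 0 with h | h
    · exact mul_nonneg_of_nonpos_of_nonpos h (by linarith)
    · exact mul_nonneg h.le (by linarith)
  nlinarith

theorem near : S_NEAR := by
  intro ι _ _ V G y K
  classical
  -- the counting from above
  have up1 : ∑ p ∈ univ.erase y, ∑ x ∈ univ.erase y, cnt (fun q : ι => G.Adj p x ∧ G.Adj p q ∧ sepP V y x q p) ≤
      ∑ x ∈ univ.erase y, nex V G y x := by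
    rw [sum_comm]
    refine sum_le_sum fun x _ => ?_
    refine (sum_le_univ_sum_of_nonneg fun p => Nat.zero_le _).trans ?_
    have h1 : ∑ p, cnt (fun q : ι => G.Adj p x ∧ G.Adj p q ∧ sepP V y x q p) =
        cnt (fun q : ι × ι => G.Adj q.1 x ∧ G.Adj q.1 q.2 ∧ sepP V y x q.2 q.1) := by
      rw [cnt_prod]
    rw [h1]
    unfold nex
    rw [← cnt_swap]
    apply cnt_mono
    rintro ⟨p, q⟩ ⟨h2, h3, h4⟩
    exact ⟨h3.symm, Or.inr h2.symm, h4⟩
  have up2 : ∑ p ∈ univ.erase y, ∑ x ∈ univ.erase y, cnt (fun q : ι => G.Adj p x ∧ G.Adj p q ∧ sepP V y x p q) ≤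
      ∑ x ∈ univ.erase y, nex V G y x := by
    rw [sum_comm]
    refine sum_le_sum fun x _ => ?_
    refine (sum_le_univ_sum_of_nonneg fun p => Nat.zero_le _).trans ?_
    have h1 : ∑ p, cnt (fun q : ι => G.Adj p x ∧ G.Adj p q ∧ sepP V y x p q) =
        cnt (fun q : ι × ι => G.Adj q.1 x ∧ G.Adj q.1 q.2 ∧ sepP V y x q.1 q.2) := by
      rw [cnt_prod]
    rw [h1]
    unfold nex
    apply cnt_mono
    rintro ⟨p, q⟩ ⟨h2, h3, h4⟩
    exact ⟨h3, Or.inl h2.symm, h4⟩
  -- the counting at `p`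
  have low : ∀ p ∈ univ.erase y, K * cnt (fun q : ι => G.Adj p q ∧ p ≠ y ∧ q ≠ y) ≤
      (∑ x ∈ univ.erase y, cnt (fun q : ι => G.Adj p x ∧ G.Adj p q ∧ sepP V y x q p)) +
      (∑ x ∈ univ.erase y, cnt (fun q : ι => G.Adj p x ∧ G.Adj p q ∧ sepP V y x p q)) + (K + 1) * K := by
    intro p hp
    have hpy : p ≠ y := (mem_erase.1 hp).1
    set A : Finset ι := univ.filter fun q => G.Adj p q ∧ q ≠ y ∧ 0 < V.chi y p q with hA
    set B : Finset ι := univ.filter fun q => G.Adj p q ∧ q ≠ y ∧ V.chi y p q < 0 with hB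
    have hcnt : cnt (fun q : ι => G.Adj p q ∧ p ≠ y ∧ q ≠ y) = A.card + B.card := by
      have h1 : cnt (fun q : ι => G.Adj p q ∧ q ≠ y ∧ 0 < V.chi y p q) +
          cnt (fun q : ι => G.Adj p q ∧ q ≠ y ∧ V.chi y p q < 0) =
            cnt (fun q : ι => G.Adj p q ∧ p ≠ y ∧ q ≠ y) := by
        rw [cnt_add (fun q h h' => lt_asymm h.2.2 h'.2.2)]
        apply cnt_congr
        intro q
        constructor
        · rintro (⟨h1, h2, _⟩ | ⟨h1, h2, _⟩)
          · exact ⟨h1, hpy, h2⟩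
          · exact ⟨h1, hpy, h2⟩
        · rintro ⟨h1, _, h2⟩
          have h3 := chi_ne V hpy.symm h2.symm h1.ne
          rcases lt_or_gt_of_ne h3 with h4 | h4
          · exact Or.inr ⟨h1, h2, h4⟩
          · exact Or.inl ⟨h1, h2, h4⟩
      rw [← h1]
      unfold cnt
      rw [hA, hB]
      congr
    have tA := tour A (fun x q => 0 < V.chi y x q) (by
      intro x hx q hq hne
      rw [hA, mem_filter] at hx hq
      have h1 := chi_ne V hx.2.2.1.symm hq.2.2.1.symm hne
      rw [chi_anti V y q x]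
      constructor
      · intro h2 h3; linarith
      · intro h2
        rcases lt_or_gt_of_ne h1 with h3 | h3
        · exact absurd (by linarith) h2
        · exact h3)
    have tB := tour B (fun x q => V.chi y x q < 0) (by
      intro x hx q hq hne
      rw [hB, mem_filter] at hx hq
      have h1 := chi_ne V hx.2.2.1.symm hq.2.2.1.symm hne
      rw [chi_anti V y q x]
      constructor
      · intro h2 h3; linarith
      · intro h2
        rcases lt_or_gt_of_ne h1 with h3 | h3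
        · exact h3
        · exact absurd (by linarith) h2)
    have lA : (A.offDiag.filter fun q => 0 < V.chi y q.1 q.2).card ≤
        ∑ x ∈ univ.erase y, cnt (fun q : ι => G.Adj p x ∧ G.Adj p q ∧ sepP V y x q p) := by
      have h1 : ∑ x ∈ univ.erase y, cnt (fun q : ι => G.Adj p x ∧ G.Adj p q ∧ sepP V y x q p) =
          ((univ.erase y).sigma fun x => univ.filter fun q : ι => G.Adj p x ∧ G.Adj p q ∧ sepP V y x q p).card := by
        rw [card_sigma]
        refine sum_congr rfl fun x _ => ?_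
        unfold cnt
        congr
      rw [h1]
      refine card_le_card_of_injOn (fun q : ι × ι => (⟨q.1, q.2⟩ : (_ : ι) × ι)) ?_ ?_
      · rintro ⟨x, q⟩ h
        rw [mem_coe, mem_filter, mem_offDiag] at h
        obtain ⟨⟨hx, hq, hne⟩, ht⟩ := h
        rw [hA, mem_filter] at hx hq
        rw [mem_coe, mem_sigma, mem_erase, mem_filter]
        refine ⟨⟨hx.2.2.1, mem_univ _⟩, mem_univ _, hx.2.1, hq.2.1, hq.2.2.1, hne.symm, hpy, hx.2.1.ne, ht, ?_⟩
        have := hx.2.2.2
        rw [chi_anti] at this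
        linarith
      · rintro ⟨x, q⟩ _ ⟨x', q'⟩ _ h
        simp only [Sigma.mk.injEq, heq_eq_eq] at h
        exact Prod.ext h.1 h.2
    have lB : (B.offDiag.filter fun q => V.chi y q.1 q.2 < 0).card ≤
        ∑ x ∈ univ.erase y, cnt (fun q : ι => G.Adj p x ∧ G.Adj p q ∧ sepP V y x p q) := by
      have h1 : ∑ x ∈ univ.erase y, cnt (fun q : ι => G.Adj p x ∧ G.Adj p q ∧ sepP V y x p q) =
          ((univ.erase y).sigma fun x => univ.filter fun q : ι => G.Adj p x ∧ G.Adj p q ∧ sepP V y x p q).card := by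
        rw [card_sigma]
        refine sum_congr rfl fun x _ => ?_
        unfold cnt
        congr
      rw [h1]
      refine card_le_card_of_injOn (fun q : ι × ι => (⟨q.1, q.2⟩ : (_ : ι) × ι)) ?_ ?_
      · rintro ⟨x, q⟩ h
        rw [mem_coe, mem_filter, mem_offDiag] at h
        obtain ⟨⟨hx, hq, hne⟩, ht⟩ := h
        rw [hB, mem_filter] at hx hq
        rw [mem_coe, mem_sigma, mem_erase, mem_filter]
        refine ⟨⟨hx.2.2.1, mem_univ _⟩, mem_univ _, hx.2.1, hq.2.1, hpy, hx.2.1.ne, hq.2.2.1, hne.symm, ?_, ht⟩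
        have := hx.2.2.2
        rw [chi_anti] at this
        linarith
      · rintro ⟨x, q⟩ _ ⟨x', q'⟩ _ h
        simp only [Sigma.mk.injEq, heq_eq_eq] at h
        exact Prod.ext h.1 h.2
    have qA := quad A.card K
    have qB := quad B.card K
    rw [hcnt]
    have e1 : K * (K + 1) = (K + 1) * K := Nat.mul_comm _ _
    have e2 : 2 * (K * (A.card + B.card)) = 2 * K * A.card + 2 * K * B.card := by ring
    omega
  -- together
  have h1 : cnt (fun q : ι × ι => G.Adj q.1 q.2 ∧ q.1 ≠ y ∧ q.2 ≠ y) =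
      ∑ p ∈ univ.erase y, cnt (fun q : ι => G.Adj p q ∧ p ≠ y ∧ q ≠ y) := by
    rw [cnt_prod]
    symm
    refine sum_erase _ ?_
    exact cnt_eq_zero fun q h => h.2.1 rfl
  rw [h1, mul_sum]
  refine (sum_le_sum low).trans ?_
  rw [sum_add_distrib, sum_add_distrib, sum_const, smul_eq_mul, card_erase_of_mem (mem_univ y), card_univ]
  omega

end Pool.Agent.Q153.GL
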